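import Pool.Agent.Work.MP_a39d1e_co.Main

/-!
# The upper chromatic numbers of high-dimensional Euclidean spaces are infinite
-/

set_option autoImplicit false

namespace Pool.Agent.Results.MP_a39d1e_co.InfiniteFromTwelve

/-- `D` is an array with `k` rows and `m` columns of forbidden distances; the space of dimension
`n` has a `D`-colouring: a colouring with `m` colours such that no two points of colour `j` are at
a distance listed in column `j`. -/
def Colorable (k m n : ℕ) (D : Fin k → Fin m → ℝ) : Prop :=
  ∃ T : EuclideanSpace ℝ (Fin n) → Fin m,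
    ∀ (i : Fin k) (j : Fin m) (x y : EuclideanSpace ℝ (Fin n)),
      dist x y = D i j → ¬ (T x = j ∧ T y = j)

/-- Padding with zeros. -/
noncomputable def pad (n : ℕ) (x : EuclideanSpace ℝ (Fin 12)) : EuclideanSpace ℝ (Fin n) :=
  WithLp.toLp 2 fun i => if h : i.val < 12 then x ⟨i.val, h⟩ else 0

lemma dist_pad {n : ℕ} (hn : 12 ≤ n) (x y : EuclideanSpace ℝ (Fin 12)) :
    dist (pad n x) (pad n y) = dist x y := by
  rw [EuclideanSpace.dist_eq, EuclideanSpace.dist_eq]
  congr 1
  symm
  apply Fintype.sum_of_injective (Fin.castLE hn) (Fin.castLE_injective hn)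
  · intro i hi
    have h : ¬ i.val < 12 := fun h => hi ⟨⟨i.val, h⟩, by ext; rfl⟩
    simp [pad, h]
  · intro i
    have h : (Fin.castLE hn i).val < 12 := i.2
    simp [pad]

/-- For all `k ≥ 1` and `n ≥ 12` the `k`-th upper chromatic number of the Euclidean space of
dimension `n` is infinite: for every `m` there is an array of positive reals with `k` rows and `m`
columns for which the space has no `D`-colouring. -/
theorem result (k n : ℕ) (hk : 1 ≤ k) (hn : 12 ≤ n) (m : ℕ) :
    ∃ D : Fin k → Fin m → ℝ, (∀ i j, 0 < D i j) ∧ ¬ Colorable k m n D := by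
  obtain ⟨D, hD, hno⟩ := Pool.Agent.Work.MP_a39d1e_co.upper_chromatic_infinite m
  refine ⟨fun _ j => D 0 j, fun _ j => hD 0 j, ?_⟩
  rintro ⟨T, hT⟩
  apply hno
  refine ⟨fun x => T (pad n x), fun i j x y hxy => ?_⟩
  have hi : i = 0 := Subsingleton.elim _ _
  subst hi
  exact hT ⟨0, hk⟩ j (pad n x) (pad n y) (by rw [dist_pad hn, hxy])

end Pool.Agent.Results.MP_a39d1e_co.InfiniteFromTwelve
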